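import Pool.Agent.W966.Vf.Stms

/-! # VF-AD: decompositions over power series over a field of characteristic zero -/

set_option autoImplicit false

namespace Pool.Agent.W239.VF

open Polynomial Pool.Agent.H515R2.MMR

theorem exists_hom_aux (A : Type) [CommRing A] [Nontrivial A] [Algebra ℚ A]
    [Algebra.FiniteType ℚ A] : Nonempty (A →+* ℂ) := by
  obtain ⟨M, hM⟩ := Ideal.exists_maximal A
  let _ : Field (A ⧸ M) := Ideal.Quotient.field M
  have h2 : Algebra.FiniteType ℚ (A ⧸ M) :=
    Algebra.FiniteType.of_surjective (Ideal.Quotient.mkₐ ℚ M) (Ideal.Quotient.mkₐ_surjective ℚ M)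
  have h3 : Module.Finite ℚ (A ⧸ M) := finite_of_finite_type_of_isJacobsonRing ℚ (A ⧸ M)
  have h4 : Algebra.IsAlgebraic ℚ (A ⧸ M) := Algebra.IsAlgebraic.of_finite ℚ (A ⧸ M)
  exact ⟨(IsAlgClosed.lift (M := ℂ) (R := ℚ) (S := A ⧸ M)).toRingHom.comp
    (Ideal.Quotient.mk M)⟩

theorem exists_hom {Ω : Type} [Field Ω] [CharZero Ω] (s : Set Ω) (hs : s.Finite) :
    Nonempty ((Algebra.adjoin ℚ s) →+* ℂ) := by
  have hfg : (Algebra.adjoin ℚ s).FG := ⟨hs.toFinset, by rw [hs.coe_toFinset]⟩
  have h1 : Algebra.FiniteType ℚ (Algebra.adjoin ℚ s) := (Subalgebra.fg_iff_finiteType _).1 hfg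
  exact exists_hom_aux (Algebra.adjoin ℚ s)

/-- Truncation of a power series with coefficients in a subring. -/
noncomputable def tr {Ω : Type} [Field Ω] [CharZero Ω] (S : Subalgebra ℚ Ω) (H : ℕ)
    (p : PowerSeries Ω) (hp : ∀ d : Fin (H + 1), PowerSeries.coeff (d : ℕ) p ∈ S) : Polynomial S :=
  ∑ d : Fin (H + 1), Polynomial.monomial (d : ℕ) (⟨PowerSeries.coeff (d : ℕ) p, hp d⟩ : S)

theorem tr_dvd {Ω : Type} [Field Ω] [CharZero Ω] (S : Subalgebra ℚ Ω) (H : ℕ)
    (p : PowerSeries Ω) (hp : ∀ d : Fin (H + 1), PowerSeries.coeff (d : ℕ) p ∈ S) :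
    (PowerSeries.X : PowerSeries Ω) ^ (H + 1) ∣
      p - (((tr S H p hp).map S.val.toRingHom : Polynomial Ω) : PowerSeries Ω) := by
  rw [PowerSeries.X_pow_dvd_iff]
  intro n hn
  rw [map_sub, Polynomial.coeff_coe, Polynomial.coeff_map, tr, Polynomial.finsetSum_coeff,
    sub_eq_zero, Finset.sum_eq_single (⟨n, hn⟩ : Fin (H + 1))]
  · simp
  · intro b _ hb
    rw [Polynomial.coeff_monomial, if_neg]
    intro h
    exact hb (Fin.ext h)
  · intro h
    exact absurd (Finset.mem_univ _) h

theorem main : Pool.Agent.W966.Vf.S_AD := by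
  intro Ω _ _ m R H a b c hm habc
  set s : Set Ω :=
    (Set.range (fun q : Fin R × Fin m × Fin m × Fin (H + 1) =>
      PowerSeries.coeff (q.2.2.2 : ℕ) (a q.1 q.2.1 q.2.2.1)) ∪
    Set.range (fun q : Fin R × Fin m × Fin m × Fin (H + 1) =>
      PowerSeries.coeff (q.2.2.2 : ℕ) (b q.1 q.2.1 q.2.2.1))) ∪
    Set.range (fun q : Fin R × Fin m × Fin m × Fin (H + 1) =>
      PowerSeries.coeff (q.2.2.2 : ℕ) (c q.1 q.2.1 q.2.2.1)) with hs
  have hsf : s.Finite := ((Set.finite_range _).union (Set.finite_range _)).union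
    (Set.finite_range _)
  obtain ⟨ψ⟩ := exists_hom s hsf
  set S := Algebra.adjoin ℚ s with hS
  have ha : ∀ t i j, ∀ d : Fin (H + 1), PowerSeries.coeff (d : ℕ) (a t i j) ∈ S :=
    fun t i j d => Algebra.subset_adjoin (Or.inl (Or.inl ⟨(t, i, j, d), rfl⟩))
  have hb : ∀ t i j, ∀ d : Fin (H + 1), PowerSeries.coeff (d : ℕ) (b t i j) ∈ S :=
    fun t i j d => Algebra.subset_adjoin (Or.inl (Or.inr ⟨(t, i, j, d), rfl⟩))
  have hc : ∀ t i j, ∀ d : Fin (H + 1), PowerSeries.coeff (d : ℕ) (c t i j) ∈ S :=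
    fun t i j d => Algebra.subset_adjoin (Or.inr ⟨(t, i, j, d), rfl⟩)
  set A : Fin R → Fin m → Fin m → Polynomial S := fun t i j => tr S H (a t i j) (ha t i j) with hA
  set B : Fin R → Fin m → Fin m → Polynomial S := fun t i j => tr S H (b t i j) (hb t i j) with hB
  set C : Fin R → Fin m → Fin m → Polynomial S := fun t i j => tr S H (c t i j) (hc t i j) with hC
  have hQ : ∀ i j j' k k' l : Fin m, ∀ d ≤ H,
      (∑ t : Fin R, A t i j * B t j' k * C t k' l).coeff d =
        if d = H ∧ j = j' ∧ k = k' ∧ l = i then 1 else 0 := by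
    intro i j j' k k' l d hd
    have h1 : (PowerSeries.X : PowerSeries Ω) ^ (H + 1) ∣
        (∑ t : Fin R, a t i j * b t j' k * c t k' l) -
          (((∑ t : Fin R, A t i j * B t j' k * C t k' l).map S.val.toRingHom : Polynomial Ω) :
            PowerSeries Ω) := by
      rw [Polynomial.map_sum, ← Polynomial.coeToPowerSeries.ringHom_apply, map_sum,
        ← Finset.sum_sub_distrib]
      apply Finset.dvd_sum
      intro t _
      rw [Polynomial.map_mul, Polynomial.map_mul, map_mul, map_mul]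
      simp only [Polynomial.coeToPowerSeries.ringHom_apply]
      have e1 := tr_dvd S H (a t i j) (ha t i j)
      have e2 := tr_dvd S H (b t j' k) (hb t j' k)
      have e3 := tr_dvd S H (c t k' l) (hc t k' l)
      set a' := (((tr S H (a t i j) (ha t i j)).map S.val.toRingHom : Polynomial Ω) : PowerSeries Ω)
      set b' := (((tr S H (b t j' k) (hb t j' k)).map S.val.toRingHom : Polynomial Ω) : PowerSeries Ω)
      set c' := (((tr S H (c t k' l) (hc t k' l)).map S.val.toRingHom : Polynomial Ω) : PowerSeries Ω)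
      have e4 : a t i j * b t j' k * c t k' l - a' * b' * c' =
          (a t i j - a') * (b t j' k * c t k' l) + (b t j' k - b') * (a' * c t k' l) +
            (c t k' l - c') * (a' * b') := by ring
      rw [e4]
      exact dvd_add (dvd_add (e1.mul_right _) (e2.mul_right _)) (e3.mul_right _)
    have h2 := PowerSeries.X_pow_dvd_iff.1 h1 d (by omega)
    rw [map_sub, sub_eq_zero, habc i j j' k k' l d hd, Polynomial.coeff_coe,
      Polynomial.coeff_map] at h2
    apply Subtype.ext
    refine (Eq.trans ?_ h2.symm).trans ?_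
    · rfl
    · split_ifs <;> rfl
  apply AD.omega_le hm (h := H)
  have hdvd : ∀ i j j' k k' l : Fin m, ∃ P : Polynomial ℂ,
      (∑ t : Fin R, (A t i j).map ψ * (B t j' k).map ψ * (C t k' l).map ψ = X ^ H * P) ∧
      P.eval 0 = if j = j' ∧ k = k' ∧ l = i then 1 else 0 := by
    intro i j j' k k' l
    have e1 : ∑ t : Fin R, (A t i j).map ψ * (B t j' k).map ψ * (C t k' l).map ψ =
        (∑ t : Fin R, A t i j * B t j' k * C t k' l).map ψ := by
      rw [Polynomial.map_sum]
      apply Finset.sum_congr rfl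
      intro t _
      rw [Polynomial.map_mul, Polynomial.map_mul]
    have e2 : X ^ H ∣ (∑ t : Fin R, A t i j * B t j' k * C t k' l).map ψ := by
      rw [Polynomial.X_pow_dvd_iff]
      intro d hd
      rw [Polynomial.coeff_map, hQ i j j' k k' l d hd.le, if_neg (fun h => hd.ne h.1), map_zero]
    obtain ⟨P, hP⟩ := e2
    refine ⟨P, e1.trans hP, ?_⟩
    have e3 : ((∑ t : Fin R, A t i j * B t j' k * C t k' l).map ψ).coeff H =
        (X ^ H * P).coeff H := by rw [hP]
    rw [Polynomial.coeff_map, hQ i j j' k k' l H le_rfl] at e3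
    have e4 : (X ^ H * P).coeff H = P.coeff 0 := by
      have := Polynomial.coeff_X_pow_mul P H 0
      rwa [zero_add] at this
    rw [e4] at e3
    rw [← Polynomial.coeff_zero_eq_eval_zero, ← e3]
    by_cases h : j = j' ∧ k = k' ∧ l = i
    · rw [if_pos h, if_pos ⟨rfl, h⟩, map_one]
    · rw [if_neg h, if_neg (fun h' => h h'.2), map_zero]
  choose P hP using hdvd
  exact ⟨fun t i j => (A t i j).map ψ, fun t i j => (B t i j).map ψ,
    fun t i j => (C t i j).map ψ, P, hP⟩

end Pool.Agent.W239.VF
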